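import Mathlib
import Pool.Agent.W627.LT.Stm

/-!
# The kernel of a pair of ideals without near collision
-/

set_option autoImplicit false

namespace Pool.Agent.W287.LT

open Finset Filter NumberField Pool.Agent.H38R2.CG Pool.Agent.W627.LT
open scoped Classical

theorem phi_zero_of_le {t : ℝ} (h : 1 ≤ |t|) : phi t = 0 := by
  unfold phi
  exact max_eq_left (by linarith)

theorem phi_le_one (t : ℝ) : phi t ≤ 1 := by
  unfold phi
  exact max_le zero_le_one (by linarith [abs_nonneg t])

theorem real_part (a b : ℝ) (u : ℤ) (ha : 0 < a) (hb : 0 < b) (hab : a * b = 1)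
    (hu : a + b = u) (hlog : |Real.log (a / b)| < 1) : a = 1 := by
  have h1 := abs_lt.1 hlog
  have h2 : a / b < Real.exp 1 := (Real.log_lt_iff_lt_exp (div_pos ha hb)).1 h1.2
  have h3 : b / a < Real.exp 1 := by
    rw [← Real.log_lt_iff_lt_exp (div_pos hb ha)]
    have h4 : Real.log (b / a) = -Real.log (a / b) := by
      rw [← Real.log_inv, inv_div]
    rw [h4]
    linarith [h1.1]
  have h5 : a / b = a ^ 2 := by
    rw [div_eq_iff hb.ne']
    calc a = a * (a * b) := by rw [hab, mul_one]
      _ = a ^ 2 * b := by ring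
  have h6 : b / a = b ^ 2 := by
    rw [div_eq_iff ha.ne']
    calc b = b * (a * b) := by rw [hab, mul_one]
      _ = b ^ 2 * a := by ring
  rw [h5] at h2
  rw [h6] at h3
  have h7 := Real.exp_one_lt_d9
  have h8 : (a + b) ^ 2 < 9 := by nlinarith
  have h9 : a + b < 3 := by nlinarith
  have h10 : 2 ≤ a + b := by nlinarith [sq_nonneg (a - b)]
  rw [hu] at h9 h10
  have h11 : u = 2 := by
    have h12 : u < 3 := by exact_mod_cast h9
    have h13 : 2 ≤ u := by exact_mod_cast h10
    omega
  rw [h11] at hu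
  push_cast at hu
  have h12 : (a - b) ^ 2 = 0 := by nlinarith
  have h13 : a - b = 0 := by
    exact pow_eq_zero_iff (two_ne_zero) |>.1 h12
  linarith

theorem unit_case {K : Type} [Field K] [NumberField K] {D : ℕ} (e : Emb K D)
    (A : Ideal (𝓞 K)) (hA : A ≠ ⊥) (x : K) (hx : x ∈ XAB e A A)
    (hlog : |Real.log (e.σ x / e.τ x)| < 1) : x = 1 := by
  obtain ⟨hσ, hτ, hx⟩ := hx
  have hA' : (A : FractionalIdeal (nonZeroDivisors (𝓞 K)) K) ≠ 0 := by
    intro h
    exact hA (FractionalIdeal.coeIdeal_eq_zero.1 h)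
  have h1 : FractionalIdeal.spanSingleton (nonZeroDivisors (𝓞 K)) x = 1 := by
    apply mul_right_cancel₀ hA'
    rw [hx, one_mul]
  have h2 : x ∈ (1 : FractionalIdeal (nonZeroDivisors (𝓞 K)) K) := by
    rw [← h1]
    exact FractionalIdeal.mem_spanSingleton_self _ x
  obtain ⟨y, hy⟩ := (FractionalIdeal.mem_one_iff _).1 h2
  have h3 : (1 : K) ∈ FractionalIdeal.spanSingleton (nonZeroDivisors (𝓞 K)) x := by
    rw [h1]
    exact (FractionalIdeal.mem_one_iff _).2 ⟨1, map_one _⟩
  obtain ⟨z, hz⟩ := (FractionalIdeal.mem_spanSingleton _).1 h3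
  have hyz : z * y = 1 := by
    apply FaithfulSMul.algebraMap_injective (𝓞 K) K
    rw [map_mul, hy, map_one, ← hz, Algebra.smul_def]
  have hN : Algebra.norm ℤ z * Algebra.norm ℤ y = 1 := by
    rw [← map_mul, hyz, map_one]
  have hyx : (y : K) = x := hy
  have hnr : ((Algebra.norm ℤ y : ℤ) : ℝ) = e.σ x * e.τ x := by
    rw [← e.nrm x, ← hyx, ← Algebra.coe_norm_int]
    norm_cast
  have hpos : 0 < Algebra.norm ℤ y := by
    have h4 : (0 : ℝ) < ((Algebra.norm ℤ y : ℤ) : ℝ) := by
      rw [hnr]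
      exact mul_pos hσ hτ
    exact_mod_cast h4
  have hone : Algebra.norm ℤ y = 1 := by
    have h4 : Algebra.norm ℤ y ∣ 1 := ⟨Algebra.norm ℤ z, by rw [mul_comm]; exact hN.symm⟩
    exact Int.eq_one_of_dvd_one hpos.le h4
  have hab : e.σ x * e.τ x = 1 := by
    rw [← hnr, hone]
    norm_num
  obtain ⟨u, v, -, hu1, hu2⟩ := e.int1 y
  rw [hyx] at hu1 hu2
  have hs : e.σ x + e.τ x = u := by
    rw [hu1, hu2]
    ring
  have h5 := real_part (e.σ x) (e.τ x) u hσ hτ hab hs hlog
  apply e.σ.injective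
  rw [h5, map_one]

theorem ltk : S_K := by
  intro K _ _ D hD hf hdisc e A B hA hcol
  by_cases hAB : A = B
  · subst hAB
    rw [if_pos rfl]
    unfold KAB
    have h1 : ∀ x : K, x ≠ 1 →
        (∑ᶠ (_ : x ∈ XAB e A A), phi (Real.log (e.σ x / e.τ x))) = 0 := by
      intro x hx
      rw [finsum_eq_if]
      split_ifs with hx'
      · apply phi_zero_of_le
        by_contra hcon
        push Not at hcon
        exact hx (unit_case e A hA x hx' hcon)
      · rfl
    rw [finsum_eq_single _ (1 : K) h1, finsum_eq_if]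
    split_ifs
    · exact phi_le_one _
    · exact zero_le_one
  · rw [if_neg hAB]
    unfold KAB
    apply le_of_eq
    apply finsum_eq_zero_of_forall_eq_zero
    intro x
    rw [finsum_eq_if]
    split_ifs with hx
    · apply phi_zero_of_le
      by_contra hcon
      push Not at hcon
      exact hAB (hcol x hx hcon)
    · rfl

end Pool.Agent.W287.LT
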